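import Pool.Agent.Run7.h102.LS.Stm
import Pool.Agent.H777R4.DM.Basic

/-! # Pieces LSH and PRS: the unshuffle coproduct -/

set_option autoImplicit false

namespace Run7.h431.LS

open Pool.Agent.H777R4.DM Run7.h102.LS

attribute [local instance 100] LieRing.ofAssociativeRing

variable {α : Type}

/-- pairs of words -/
abbrev A2 (α : Type) : Type := MonoidAlgebra ℚ (FreeMonoid α × FreeMonoid α)

/-- `P ↦ P ⊗ 1` -/
noncomputable def il : Al α →ₐ[ℚ] A2 α :=
  MonoidAlgebra.mapDomainAlgHom ℚ ℚ (MonoidHom.inl (FreeMonoid α) (FreeMonoid α))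

/-- `P ↦ 1 ⊗ P` -/
noncomputable def ir : Al α →ₐ[ℚ] A2 α :=
  MonoidAlgebra.mapDomainAlgHom ℚ ℚ (MonoidHom.inr (FreeMonoid α) (FreeMonoid α))

/-- the unshuffle coproduct -/
noncomputable def Del : Al α →ₐ[ℚ] A2 α :=
  MonoidAlgebra.lift ℚ (A2 α) (FreeMonoid α) (FreeMonoid.lift (fun k : α => il (wd [k]) + ir (wd [k])))

/-- the coefficient at a pair of words -/
noncomputable def cf (P : A2 α) (k k' : List α) : ℚ := P.coeff (FreeMonoid.ofList k, FreeMonoid.ofList k')

/-- a pair of words -/
noncomputable def w2 (k k' : List α) : A2 α :=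
  MonoidAlgebra.of ℚ (FreeMonoid α × FreeMonoid α) (FreeMonoid.ofList k, FreeMonoid.ofList k')

lemma cf_add (P Q : A2 α) (k k' : List α) : cf (P + Q) k k' = cf P k k' + cf Q k k' := by
  simp [cf]

lemma cf_smul (c : ℚ) (P : A2 α) (k k' : List α) : cf (c • P) k k' = c * cf P k k' := by
  simp [cf]

lemma cf_w2 [DecidableEq α] (u v k k' : List α) : cf (w2 u v) k k' = if u = k ∧ v = k' then 1 else 0 := by
  classical
  unfold cf w2
  rw [MonoidAlgebra.of_apply, MonoidAlgebra.coeff_single, Finsupp.single_apply]
  by_cases h : u = k ∧ v = k'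
  · obtain ⟨rfl, rfl⟩ := h
    simp
  · rw [if_neg h, if_neg]
    intro h2
    rw [Prod.mk.injEq] at h2
    exact h ⟨FreeMonoid.ofList.injective h2.1, FreeMonoid.ofList.injective h2.2⟩

lemma il_wd (u : List α) : il (wd u) = w2 u ([] : List α) := by
  unfold il wd w2
  simp [MonoidAlgebra.mapDomainAlgHom, MonoidAlgebra.of_apply, MonoidAlgebra.mapDomain_single]

lemma ir_wd (u : List α) : ir (wd u) = w2 ([] : List α) u := by
  unfold ir wd w2
  simp [MonoidAlgebra.mapDomainAlgHom, MonoidAlgebra.of_apply, MonoidAlgebra.mapDomain_single]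

lemma w2_mul (a b u v : List α) : (w2 a b : A2 α) * w2 u v = w2 (a ++ u) (b ++ v) := by
  unfold w2
  rw [← map_mul]
  rfl

lemma a2_induction {p : A2 α → Prop} (P : A2 α) (h1 : ∀ k l, p (w2 k l))
    (h2 : ∀ P Q, p P → p Q → p (P + Q)) (h3 : ∀ (c : ℚ) P, p P → p (c • P)) : p P :=
  MonoidAlgebra.induction_on P (fun m => h1 (FreeMonoid.toList m.1) (FreeMonoid.toList m.2)) h2 h3

/-- the coefficients of `(x ⊗ 1) X` -/
lemma cf_il_mul [DecidableEq α] (a : α) (X : A2 α) (k k' : List α) :
    cf (il (wd [a]) * X) k k' = match k with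
      | [] => 0
      | b :: u => if a = b then cf X u k' else 0 := by
  induction X using a2_induction with
  | h1 u v =>
    rw [il_wd, w2_mul, cf_w2]
    cases k with
    | nil => simp
    | cons b t =>
      by_cases h : a = b
      · subst h
        simp [cf_w2]
      · simp [h]
  | h2 P Q hP hQ =>
    rw [mul_add, cf_add, hP, hQ]
    cases k with
    | nil => simp
    | cons b t =>
      by_cases h : a = b
      · simp [h, cf_add]
      · simp [h]
  | h3 c P hP =>
    rw [mul_smul_comm, cf_smul, hP]
    cases k with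
    | nil => simp
    | cons b t =>
      by_cases h : a = b
      · simp [h, cf_smul]
      · simp [h]

/-- the coefficients of `(1 ⊗ x) X` -/
lemma cf_ir_mul [DecidableEq α] (a : α) (X : A2 α) (k k' : List α) :
    cf (ir (wd [a]) * X) k k' = match k' with
      | [] => 0
      | b :: u => if a = b then cf X k u else 0 := by
  induction X using a2_induction with
  | h1 u v =>
    rw [ir_wd, w2_mul, cf_w2]
    cases k' with
    | nil => simp
    | cons b t =>
      by_cases h : a = b
      · subst h
        simp [cf_w2]
      · simp [h]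
  | h2 P Q hP hQ =>
    rw [mul_add, cf_add, hP, hQ]
    cases k' with
    | nil => simp
    | cons b t =>
      by_cases h : a = b
      · simp [h, cf_add]
      · simp [h]
  | h3 c P hP =>
    rw [mul_smul_comm, cf_smul, hP]
    cases k' with
    | nil => simp
    | cons b t =>
      by_cases h : a = b
      · simp [h, cf_smul]
      · simp [h]

lemma wd_cons (a : α) (w : List α) : (wd (a :: w) : Al α) = wd [a] * wd w := by
  unfold wd
  rw [← map_mul]
  rfl

lemma Del_cons (a : α) (w : List α) :
    Del (wd (a :: w)) = il (wd [a]) * Del (wd w) + ir (wd [a]) * Del (wd w) := by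
  rw [wd_cons, map_mul, ← add_mul]
  congr 1
  unfold Del wd
  rw [MonoidAlgebra.lift_of]
  rfl

lemma Del_nil : Del (wd ([] : List α)) = w2 ([] : List α) [] := by
  have h : (wd ([] : List α) : Al α) = 1 := by
    unfold wd
    exact map_one _
  rw [h, map_one]
  unfold w2
  exact (map_one _).symm

/-- the coefficients of the unshuffle coproduct of a word -/
lemma cf_Del_wd [DecidableEq α] (w : List α) : ∀ k k' : List α,
    cf (Del (wd w)) k k' = sh k k' (fun u => if w = u then (1 : ℚ) else 0) := by
  induction w with
  | nil =>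
    intro k k'
    rw [Del_nil, cf_w2]
    cases k with
    | nil =>
      rw [sh_nil_left]
      simp
    | cons a u =>
      cases k' with
      | nil => rw [sh_nil_right]; simp
      | cons b v => rw [sh_cons]; simp [sh_zero]
  | cons a w ih =>
    intro k k'
    rw [Del_cons, cf_add, cf_il_mul, cf_ir_mul]
    cases k with
    | nil =>
      rw [sh_nil_left]
      cases k' with
      | nil => simp
      | cons b v =>
        by_cases h : a = b
        · subst h
          simp [ih, sh_nil_left]
        · simp [h]
    | cons c u =>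
      cases k' with
      | nil =>
        rw [sh_nil_right]
        by_cases h : a = c
        · subst h
          simp [ih, sh_nil_right]
        · simp [h]
      | cons b v =>
        rw [sh_cons]
        congr 1
        · by_cases h : a = c
          · subst h
            simp [ih]
          · simp [h, sh_zero]
        · by_cases h : a = b
          · subst h
            simp [ih]
          · simp [h, sh_zero]

/-- the coefficients of the unshuffle coproduct -/
lemma cf_Del [DecidableEq α] (P : Al α) (k k' : List α) : cf (Del P) k k' = sh k k' (co P) := by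
  induction P using al_induction with
  | h1 l =>
    rw [cf_Del_wd]
    congr 1
    funext u
    rw [co_wd]
  | h2 P Q hP hQ =>
    rw [map_add, cf_add, hP, hQ, ← sh_add]
    congr 1
  | h3 c P hP =>
    rw [map_smul, cf_smul, hP]
    have h := sh_hom (AddMonoidHom.mulLeft c) k k' (co P)
    rw [AddMonoidHom.coe_mulLeft] at h
    rw [h]
    congr 1

lemma cf_il [DecidableEq α] (P : Al α) (k : List α) {k' : List α} (hk : k' ≠ []) : cf (il P) k k' = 0 := by
  induction P using al_induction with
  | h1 l =>
    rw [il_wd, cf_w2, if_neg]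
    rintro ⟨_, h⟩
    exact hk h.symm
  | h2 P Q hP hQ => rw [map_add, cf_add, hP, hQ, add_zero]
  | h3 c P hP => rw [map_smul, cf_smul, hP, mul_zero]

lemma cf_ir [DecidableEq α] (P : Al α) {k : List α} (k' : List α) (hk : k ≠ []) : cf (ir P) k k' = 0 := by
  induction P using al_induction with
  | h1 l =>
    rw [ir_wd, cf_w2, if_neg]
    rintro ⟨h, _⟩
    exact hk h.symm
  | h2 P Q hP hQ => rw [map_add, cf_add, hP, hQ, add_zero]
  | h3 c P hP => rw [map_smul, cf_smul, hP, mul_zero]

/-- primitive elements are killed by the shuffles -/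
lemma sh_of_prim [DecidableEq α] {P : Al α} (h : Del P = il P + ir P) {k k' : List α} (hk : k ≠ []) (hk' : k' ≠ []) :
    sh k k' (co P) = 0 := by
  rw [← cf_Del, h, cf_add, cf_il P k hk', cf_ir P k' hk, add_zero]

lemma il_ir_comm (P Q : Al α) : il P * ir Q = ir Q * il P := by
  induction P using al_induction with
  | h1 l =>
    induction Q using al_induction with
    | h1 m => rw [il_wd, ir_wd, w2_mul, w2_mul]; simp
    | h2 P Q hP hQ => rw [map_add, mul_add, add_mul, hP, hQ]
    | h3 c P hP => rw [map_smul, mul_smul_comm, smul_mul_assoc, hP]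
  | h2 P Q hP hQ => rw [map_add, mul_add, add_mul, hP, hQ]
  | h3 c P hP => rw [map_smul, mul_smul_comm, smul_mul_assoc, hP]

theorem t_PRS : S_PRS := by
  intro P hP k k' hk hk'
  exact sh_of_prim (P := P) hP hk hk'

theorem t_LSH : S_LSH := by
  intro ψ hψ p q hp hq
  refine sh_of_prim (P := ψ) ?_ hp hq
  refine LieSubalgebra.lieSpan_induction ℚ (p := fun y _ => Del y = il y + ir y) ?_ ?_ ?_ ?_ ?_ hψ
  · intro y hy
    have hx : ∀ i : Fin 2, Del (x i) = il (x i) + ir (x i) := by
      intro i
      unfold x
      rw [Del_cons, Del_nil]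
      have h : (w2 ([] : List (Fin 2)) [] : A2 (Fin 2)) = 1 := by
        unfold w2
        exact map_one _
      rw [h, mul_one, mul_one]
    rcases hy with rfl | hy
    · exact hx 0
    · rw [Set.mem_singleton_iff] at hy
      rw [hy]
      exact hx 1
  · simp
  · intro y z _ _ hy hz
    rw [map_add, map_add, map_add, hy, hz]
    abel
  · intro c y _ hy
    rw [map_smul, map_smul, map_smul, hy, smul_add]
  · intro y z _ _ hy hz
    rw [Ring.lie_def, map_sub, map_sub, map_sub, map_mul, map_mul, map_mul, map_mul, map_mul, map_mul, hy, hz]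
    have h1 := il_ir_comm y z
    have h2 := il_ir_comm z y
    rw [add_mul, mul_add, mul_add, add_mul, mul_add, mul_add, h1, h2]
    abel

end Run7.h431.LS
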